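import Pool.Agent.V11276.RA

/-!
# MP_6f4751_nt: weighted sums of squares of `R_{n,r}` modulo `n`

Q1 has a positive answer for every `r`, with the explicit constant
`a_r = 8 (r+1) ((2r+1)!!)^2`: `n` divides `a_r S_{n,r}` (an integer) for every `n ≥ 1`.
-/

namespace Pool.Agent.Results.MP_6f4751_nt.AllR

open Finset

/-- `R_{n,r} = ∑_{k ≤ n} C(n+k,2k) C(2k,k) / (2k-2r-1)` -/
def R (n r : ℕ) : ℚ :=
  ∑ k ∈ range (n + 1), ((n + k).choose (2 * k) : ℚ) * ((2 * k).choose k : ℚ) / (2 * k - 2 * r - 1)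

/-- `S_{n,r} = ∑_{k < n} (2k+1) R_{k,r}^2` -/
def S (n r : ℕ) : ℚ := ∑ k ∈ range n, (2 * (k : ℚ) + 1) * R k r ^ 2

theorem R_eq (n r : ℕ) : R n r = Pool.Agent.V11276.RA.X (Pool.Agent.V11276.RA.wc (2 * r + 1)) n := by
  unfold R Pool.Agent.V11276.RA.X Pool.Agent.V11276.RA.wc
  refine sum_congr rfl fun k _ => ?_
  rw [mul_one_div]
  congr 1
  ring

theorem S_eq (n r : ℕ) : S n r = Pool.Agent.V11276.RA.S (Pool.Agent.V11276.RA.wc (2 * r + 1))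
    (Pool.Agent.V11276.RA.wc (2 * r + 1)) n := by
  unfold S Pool.Agent.V11276.RA.S
  refine sum_congr rfl fun k _ => ?_
  rw [R_eq]; ring

/-- For every `r` and every `n ≥ 1`, the number `8 (r+1) ((2r+1)!!)^2 S_{n,r}` is an integer
divisible by `n`; in particular for every `r ≥ 1` a nonzero integer `a_r` as in Q1 exists. -/
theorem result :
    (∀ r n : ℕ, 1 ≤ n → ∃ z : ℤ,
      ((8 * (r + 1) * (2 * r + 1).doubleFactorial ^ 2 : ℕ) : ℚ) * S n r = n * z) ∧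
    (∀ r : ℕ, 1 ≤ r → ∃ a : ℤ, a ≠ 0 ∧ ∀ n : ℕ, 1 ≤ n → ∃ z : ℤ, (a : ℚ) * S n r = n * z) := by
  have h : ∀ r n : ℕ, 1 ≤ n → ∃ z : ℤ,
      ((8 * (r + 1) * (2 * r + 1).doubleFactorial ^ 2 : ℕ) : ℚ) * S n r = n * z := by
    intro r n hn
    obtain ⟨m, rfl⟩ := Nat.exists_eq_add_of_le' hn
    obtain ⟨z, hz⟩ := Pool.Agent.V11276.RA.main r m
    refine ⟨z, ?_⟩
    rw [S_eq]
    unfold Pool.Agent.V11276.RA.N at hz
    push_cast at hz ⊢
    linear_combination hz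
  refine ⟨h, fun r _ => ⟨((8 * (r + 1) * (2 * r + 1).doubleFactorial ^ 2 : ℕ) : ℤ), ?_, ?_⟩⟩
  · have := Nat.doubleFactorial_pos (2 * r + 1)
    positivity
  · intro n hn
    obtain ⟨z, hz⟩ := h r n hn
    exact ⟨z, by rw [← hz, Int.cast_natCast]⟩

end Pool.Agent.Results.MP_6f4751_nt.AllR
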